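import Pool.Agent.Helper42.BK.Infinite

/-!
# MP_33a8f1_co: consecutive pairs of a sequence versus merged pairs

There is one infinite sequence `a_1, a_2, ...` of positive integers such that for every `ε > 0`
all sufficiently long initial segments `(a_1, ..., a_n)` have
`|P(a_1..a_n) ∩ L(a_1..a_n) ∩ R(a_1..a_n)| ≥ (1 - ε) n`.
-/

set_option autoImplicit false

namespace Pool.Agent.Results.MP_33a8f1_co.ConsecutivePairs

/-- `P(a_1, ..., a_n)`: the set of the pairs `(a_i, a_(i+1))`, `1 ≤ i ≤ n - 1`. -/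
def P (n : ℕ) (a : ℕ → ℕ+) : Set (ℕ+ × ℕ+) :=
  {w | ∃ i : ℕ, 1 ≤ i ∧ i + 1 ≤ n ∧ w = (a i, a (i + 1))}

/-- `L(a_1, ..., a_n)`: the set of the pairs `(a_j + a_(j+1), a_(j+2))`, `1 ≤ j ≤ n - 2`. -/
def L (n : ℕ) (a : ℕ → ℕ+) : Set (ℕ+ × ℕ+) :=
  {w | ∃ j : ℕ, 1 ≤ j ∧ j + 2 ≤ n ∧ w = (a j + a (j + 1), a (j + 2))}

/-- `R(a_1, ..., a_n)`: the set of the pairs `(a_k, a_(k+1) + a_(k+2))`, `1 ≤ k ≤ n - 2`. -/
def R (n : ℕ) (a : ℕ → ℕ+) : Set (ℕ+ × ℕ+) :=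
  {w | ∃ k : ℕ, 1 ≤ k ∧ k + 2 ≤ n ∧ w = (a k, a (k + 1) + a (k + 2))}

theorem finite_P (n : ℕ) (a : ℕ → ℕ+) : (P n a).Finite := by
  refine ((Set.finite_Icc 1 n).image (fun i => (a i, a (i + 1)))).subset ?_
  rintro w ⟨i, h1, h2, rfl⟩
  exact ⟨i, ⟨h1, by omega⟩, rfl⟩

/-- One infinite sequence of positive integers all of whose long initial segments answer the
question affirmatively. -/
theorem result :
    ∃ a : ℕ → ℕ+, ∀ ε : ℝ, 0 < ε → ∃ N : ℕ, 3 ≤ N ∧ ∀ n : ℕ, N ≤ n →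
      (1 - ε) * (n : ℝ) ≤ ((P n a ∩ L n a ∩ R n a).ncard : ℝ) := by
  obtain ⟨b, hb, h⟩ := Pool.Agent.Helper42.BK.infinite_nat
  set a : ℕ → ℕ+ := fun i => (b i).toPNat' with ha
  have hab : ∀ i, 1 ≤ i → ((a i : ℕ+) : ℕ) = b i := by
    intro i hi
    simp only [ha, Nat.toPNat'_coe, if_pos (hb i hi)]
  refine ⟨a, ?_⟩
  intro ε hε
  obtain ⟨N, hN⟩ := h ε hε
  refine ⟨max N 3, le_max_right _ _, ?_⟩
  intro n hn
  obtain ⟨U, hU, hcard⟩ := hN n ((le_max_left _ _).trans hn)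
  refine hcard.trans ?_
  have hfin : (P n a ∩ L n a ∩ R n a).Finite :=
    ((finite_P n a).inter_of_left _).inter_of_left _
  have hinj : Function.Injective (fun w : ℕ+ × ℕ+ => ((w.1 : ℕ), (w.2 : ℕ))) := by
    intro w w' hww
    simp only [Prod.mk.injEq, PNat.coe_inj] at hww
    exact Prod.ext hww.1 hww.2
  have hsub : (U : Set (ℕ × ℕ)) ⊆
      (fun w : ℕ+ × ℕ+ => ((w.1 : ℕ), (w.2 : ℕ))) '' (P n a ∩ L n a ∩ R n a) := by
    intro w hw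
    obtain ⟨⟨i, hi1, hi2, hi3⟩, ⟨j, hj1, hj2, hj3⟩, ⟨k, hk1, hk2, hk3⟩⟩ := hU w hw
    have e1 : w = (((a i : ℕ+) : ℕ), ((a (i + 1) : ℕ+) : ℕ)) := by
      rw [hab i hi1, hab (i + 1) (by omega)]
      exact hi3
    refine ⟨(a i, a (i + 1)), ⟨⟨⟨i, hi1, hi2, rfl⟩, ⟨j, hj1, hj2, ?_⟩⟩, ⟨k, hk1, hk2, ?_⟩⟩, e1.symm⟩
    · apply hinj
      simp only [PNat.add_coe]
      rw [hab j hj1, hab (j + 1) (by omega), hab (j + 2) (by omega), ← hj3, ← e1]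
    · apply hinj
      simp only [PNat.add_coe]
      rw [hab k hk1, hab (k + 1) (by omega), hab (k + 2) (by omega), ← hk3, ← e1]
  have h1 : U.card ≤ (P n a ∩ L n a ∩ R n a).ncard := by
    rw [← Set.ncard_image_of_injective _ hinj, ← Set.ncard_coe_finset]
    exact Set.ncard_le_ncard hsub (hfin.image _)
  exact_mod_cast h1

end Pool.Agent.Results.MP_33a8f1_co.ConsecutivePairs
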